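import Mathlib

set_option autoImplicit false

/-!
# Laplace transforms of polynomials over the unit interval
-/

namespace Pool.Agent.N891.OPT

open Complex MeasureTheory Filter Topology Polynomial

/-- the Laplace transform of a polynomial over `[0, 1]` -/
noncomputable def J (p : ℝ[X]) (z : ℂ) : ℂ :=
  ∫ u in (0 : ℝ)..1, ((p.eval u : ℝ) : ℂ) * cexp (-(z * u))

lemma cont_int (p : ℝ[X]) (z : ℂ) :
    Continuous (fun u : ℝ => ((p.eval u : ℝ) : ℂ) * cexp (-(z * u))) :=
  (continuous_ofReal.comp p.continuous).mul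
    (continuous_exp.comp ((continuous_const.mul continuous_ofReal).neg))

lemma J_hasDeriv (p : ℝ[X]) (z : ℂ) : HasDerivAt (J p) (-J (X * p) z) z := by
  have h := intervalIntegral.hasDerivAt_integral_of_dominated_loc_of_deriv_le
    (μ := volume) (a := 0) (b := 1)
    (F := fun (z : ℂ) (u : ℝ) => ((p.eval u : ℝ) : ℂ) * cexp (-(z * u)))
    (F' := fun (z : ℂ) (u : ℝ) => -((((X * p).eval u : ℝ) : ℂ) * cexp (-(z * u))))
    (x₀ := z) (s := Metric.ball z 1)
    (bound := fun u : ℝ => |(X * p).eval u| * Real.exp ((‖z‖ + 1) * |u|))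
    (Metric.ball_mem_nhds z one_pos)
    (Eventually.of_forall fun w => (cont_int p w).aestronglyMeasurable)
    ((cont_int p z).intervalIntegrable _ _)
    ((cont_int (X * p) z).neg.aestronglyMeasurable) ?_ ?_ ?_
  · have h2 := h.2
    rw [intervalIntegral.integral_neg] at h2
    exact h2
  · refine Eventually.of_forall fun u _ w hw => ?_
    rw [norm_neg, norm_mul, norm_real, Real.norm_eq_abs, norm_exp]
    refine mul_le_mul_of_nonneg_left ?_ (abs_nonneg _)
    rw [Real.exp_le_exp]
    have h3 : ‖w‖ ≤ ‖z‖ + 1 := by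
      have h4 : ‖w - z‖ < 1 := by simpa [dist_eq_norm] using hw
      have h5 : ‖w‖ ≤ ‖z‖ + ‖w - z‖ := by
        have := norm_add_le z (w - z)
        rwa [add_sub_cancel] at this
      linarith
    calc (-(w * u)).re ≤ ‖-(w * u)‖ := re_le_norm _
      _ = ‖w‖ * |u| := by rw [norm_neg, norm_mul, norm_real, Real.norm_eq_abs]
      _ ≤ _ := mul_le_mul_of_nonneg_right h3 (abs_nonneg _)
  · have : Continuous (fun u : ℝ => |(X * p).eval u| * Real.exp ((‖z‖ + 1) * |u|)) :=
      ((X * p).continuous.abs).mul (Real.continuous_exp.comp (continuous_const.mul continuous_abs))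
    exact this.intervalIntegrable _ _
  · refine Eventually.of_forall fun u _ w _ => ?_
    have h1 : HasDerivAt (fun w : ℂ => -(w * u)) (-(1 * u)) w := ((hasDerivAt_id w).mul_const _).neg
    have h2 := (h1.cexp).const_mul (((p.eval u : ℝ) : ℂ))
    refine h2.congr_deriv ?_
    rw [eval_mul, eval_X]
    push_cast
    ring

lemma J_diff (p : ℝ[X]) : Differentiable ℂ (J p) := fun z => (J_hasDeriv p z).differentiableAt

lemma J_iter (p : ℝ[X]) (i : ℕ) :
    iteratedDeriv i (J p) = fun z => (-1) ^ i * J (X ^ i * p) z := by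
  induction i with
  | zero => funext z; simp
  | succ i ih =>
    rw [iteratedDeriv_succ, ih]
    funext z
    have h := (J_hasDeriv (X ^ i * p) z).const_mul ((-1 : ℂ) ^ i)
    rw [h.deriv, ← mul_assoc X (X ^ i) p, ← pow_succ' X i]
    ring

/-- integration by parts -/
lemma J_parts (p : ℝ[X]) (z : ℂ) :
    z * J p z = ((p.eval 0 : ℝ) : ℂ) - ((p.eval 1 : ℝ) : ℂ) * cexp (-z) + J (derivative p) z := by
  have h1 : ∀ u ∈ Set.uIcc (0 : ℝ) 1,
      HasDerivAt (fun u : ℝ => ((p.eval u : ℝ) : ℂ) * cexp (-(z * u)))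
      ((((derivative p).eval u : ℝ) : ℂ) * cexp (-(z * u)) -
        z * (((p.eval u : ℝ) : ℂ) * cexp (-(z * u)))) u := by
    intro u _
    have h2 : HasDerivAt (fun u : ℝ => ((p.eval u : ℝ) : ℂ)) (((derivative p).eval u : ℝ) : ℂ) u :=
      (p.hasDerivAt u).ofReal_comp
    have h3 : HasDerivAt (fun u : ℝ => -(z * (u : ℂ))) (-(z * ((1 : ℝ) : ℂ))) u :=
      (((hasDerivAt_id u).ofReal_comp).const_mul z).neg
    refine (h2.mul h3.cexp).congr_deriv ?_
    push_cast
    ring
  have h4 := intervalIntegral.integral_eq_sub_of_hasDerivAt h1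
    (((cont_int _ z).sub (continuous_const.mul (cont_int p z))).intervalIntegrable _ _)
  have hg : IntervalIntegrable (fun u : ℝ => z * (((p.eval u : ℝ) : ℂ) * cexp (-(z * u))))
      volume 0 1 := (continuous_const.mul (cont_int p z)).intervalIntegrable _ _
  rw [intervalIntegral.integral_sub ((cont_int _ z).intervalIntegrable _ _) hg,
    intervalIntegral.integral_const_mul] at h4
  have h5 : J (derivative p) z - z * J p z = ((p.eval 1 : ℝ) : ℂ) * cexp (-z) -
      ((p.eval 0 : ℝ) : ℂ) := by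
    have h6 : cexp (-(z * ((1 : ℝ) : ℂ))) = cexp (-z) := by simp
    have h7 : cexp (-(z * ((0 : ℝ) : ℂ))) = 1 := by simp
    rw [h6, h7, mul_one] at h4
    exact h4
  linear_combination -h5

/-- bounds on the imaginary axis -/
lemma J_bound (p : ℝ[X]) : ∃ C : ℝ, 0 < C ∧ ∀ x : ℝ, ‖J p (x * I)‖ ≤ C / (1 + |x|) := by
  have hb : ∀ q : ℝ[X], ∃ A : ℝ, 0 ≤ A ∧ ∀ x : ℝ, ‖J q (x * I)‖ ≤ A := by
    intro q
    refine ⟨∫ u in (0 : ℝ)..1, |q.eval u|, ?_, fun x => ?_⟩
    · exact intervalIntegral.integral_nonneg zero_le_one fun _ _ => abs_nonneg _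
    · refine (intervalIntegral.norm_integral_le_integral_norm zero_le_one).trans (le_of_eq ?_)
      refine intervalIntegral.integral_congr fun u _ => ?_
      rw [norm_mul, norm_real, Real.norm_eq_abs, norm_exp]
      have : (-((x : ℂ) * I * (u : ℂ))).re = 0 := by simp
      rw [this, Real.exp_zero, mul_one]
  obtain ⟨A, hA, hA'⟩ := hb p
  obtain ⟨B, hB, hB'⟩ := hb (derivative p)
  refine ⟨A + |p.eval 0| + |p.eval 1| + B + 1, by positivity, fun x => ?_⟩
  rw [le_div_iff₀ (by positivity)]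
  have h1 := J_parts p (x * I)
  have h2 : |x| * ‖J p (x * I)‖ ≤ |p.eval 0| + |p.eval 1| + B := by
    have h3 : |x| * ‖J p (x * I)‖ = ‖(x : ℂ) * I * J p (x * I)‖ := by
      rw [norm_mul, norm_mul, norm_I, mul_one, norm_real, Real.norm_eq_abs]
    rw [h3, h1]
    refine (norm_add_le _ _).trans (add_le_add ?_ (hB' x))
    refine (norm_sub_le _ _).trans (add_le_add ?_ ?_)
    · rw [norm_real, Real.norm_eq_abs]
    · rw [norm_mul, norm_real, Real.norm_eq_abs, norm_exp]
      have : (-((x : ℂ) * I)).re = 0 := by simp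
      rw [this, Real.exp_zero, mul_one]
  have h4 := hA' x
  nlinarith [norm_nonneg (J p (x * I))]

end Pool.Agent.N891.OPT
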