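import Mathlib
import Pool.Agent.N891.OPT.J
import Pool.Agent.H153R4.Pl

set_option autoImplicit false

/-!
# The functions `q_k` and the kernels `k_m`
-/

namespace Pool.Agent.N891.OPT

open Complex MeasureTheory Filter Topology Polynomial

lemma J_C_mul (a : ℝ) (p : ℝ[X]) (z : ℂ) : J (C a * p) z = a * J p z := by
  unfold J
  rw [← intervalIntegral.integral_const_mul]
  refine intervalIntegral.integral_congr fun u _ => ?_
  simp only [eval_mul, eval_C]
  push_cast
  ring

lemma J_neg (p : ℝ[X]) (z : ℂ) : J (-p) z = -J p z := by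
  have h := J_C_mul (-1) p z
  have h1 : (C (-1 : ℝ) * p) = -p := by
    rw [C_neg, C_1, neg_mul, one_mul]
  rw [h1] at h
  rw [h]
  push_cast
  ring

/-- the polynomial `u^k (1-u)^m` -/
noncomputable def fk (m k : ℕ) : ℝ[X] := X ^ k * (1 - X) ^ m

lemma eval0 (m k i : ℕ) : (derivative^[i] (fk m k)).eval 0 =
    if i < k then 0 else (i.factorial : ℝ) * ((1 - X : ℝ[X]) ^ m).coeff (i - k) := by
  rw [← coeff_zero_eq_eval_zero, coeff_iterate_derivative, zero_add, Nat.descFactorial_self,
    nsmul_eq_mul, fk, coeff_X_pow_mul']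
  split_ifs with h1 h2 h2
  · omega
  · rfl
  · rw [mul_zero]
  · omega

lemma eval0_lt {m k i : ℕ} (h : i < k) : (derivative^[i] (fk m k)).eval 0 = 0 := by
  rw [eval0, if_pos h]

lemma eval0_eq (m k : ℕ) : (derivative^[k] (fk m k)).eval 0 = (k.factorial : ℝ) := by
  rw [eval0, if_neg (lt_irrefl _), Nat.sub_self, coeff_zero_eq_eval_zero]
  simp

lemma eval1 {m k i : ℕ} (h : i < m) : (derivative^[i] (fk m k)).eval 1 = 0 := by
  have h1 : (1 - X : ℝ[X]) ^ m ∣ fk m k := Dvd.intro_left _ rfl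
  have h2 := pow_sub_dvd_iterate_derivative_of_pow_dvd i h1
  obtain ⟨q, hq⟩ := h2
  rw [hq, eval_mul, eval_pow, eval_sub, eval_one, eval_X, sub_self,
    zero_pow (by omega), zero_mul]

lemma pow_J_lt {m k : ℕ} (hk : k + 1 ≤ m) (z : ℂ) {i : ℕ} (hi : i ≤ k) :
    z ^ i * J (fk m k) z = J (derivative^[i] (fk m k)) z := by
  induction i with
  | zero => simp
  | succ i ih =>
    have h1 := ih (by omega)
    rw [pow_succ', mul_assoc, h1, J_parts, eval0_lt (by omega), eval1 (by omega),
      Function.iterate_succ_apply']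
    simp

/-- integration by parts, `k + 1` times -/
lemma pow_J {m k : ℕ} (hk : k + 1 ≤ m) (z : ℂ) :
    z ^ (k + 1) * J (fk m k) z = (k.factorial : ℂ) + J (derivative^[k + 1] (fk m k)) z := by
  rw [pow_succ', mul_assoc, pow_J_lt hk z le_rfl, J_parts, eval0_eq, eval1 (by omega),
    Function.iterate_succ_apply']
  simp

/-- the functions `q_k` -/
noncomputable def Q (m k : ℕ) (z : ℂ) : ℂ :=
  -(1 / (k.factorial : ℂ)) * J (derivative^[k + 1] (fk m k)) z

/-- the kernels `k_m` -/
noncomputable def km (m : ℕ) (z : ℂ) : ℂ := m * J ((1 - X) ^ (m - 1)) z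

lemma km_diff (m : ℕ) : Differentiable ℂ (km m) := (J_diff _).const_mul _

lemma km_eq {m : ℕ} (hm : 1 ≤ m) (z : ℂ) : z * J ((1 - X) ^ m) z = 1 - km m z := by
  have h1 : derivative ((1 - X : ℝ[X]) ^ m) = -(C (m : ℝ) * (1 - X) ^ (m - 1)) := by
    rw [derivative_pow, derivative_sub, derivative_one, derivative_X]
    simp
  rw [J_parts, h1, J_neg, J_C_mul, km]
  simp only [eval_pow, eval_sub, eval_one, eval_X, sub_self, sub_zero, one_pow]
  rw [zero_pow (by omega)]
  push_cast
  ring

lemma km_zero {m : ℕ} (hm : 1 ≤ m) : km m 0 = 1 := by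
  have h := km_eq hm 0
  rw [zero_mul] at h
  linear_combination h

/-- bounds for the kernel -/
lemma km_bound {m : ℕ} (hm : 1 ≤ m) (z : ℂ) : ‖km m z‖ ≤ max 1 (Real.exp (-z.re)) := by
  have h1 : ‖J ((1 - X) ^ (m - 1)) z‖ ≤ (1 / m : ℝ) * max 1 (Real.exp (-z.re)) := by
    have h3 : ∫ u in (0 : ℝ)..1, (1 - u) ^ (m - 1) = 1 / m := by
      have h4 : ∀ u ∈ Set.uIcc (0 : ℝ) 1, HasDerivAt (fun u : ℝ => -((1 - u) ^ m) / m)
          ((1 - u) ^ (m - 1)) u := by
        intro u _
        have h5 : HasDerivAt (fun u : ℝ => 1 - u) (-1) u := by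
          simpa using (hasDerivAt_id u).const_sub 1
        refine ((h5.pow m).neg.div_const _).congr_deriv ?_
        have hm' : (m : ℝ) ≠ 0 := by positivity
        field_simp
      have hc : Continuous (fun u : ℝ => (1 - u) ^ (m - 1)) := by fun_prop
      rw [intervalIntegral.integral_eq_sub_of_hasDerivAt h4 (hc.intervalIntegrable _ _)]
      simp [zero_pow (show m ≠ 0 by omega), neg_div]
    rw [← h3, ← intervalIntegral.integral_mul_const]
    unfold J
    refine intervalIntegral.norm_integral_le_of_norm_le zero_le_one ?_ ?_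
    · refine Eventually.of_forall fun u hu => ?_
      rw [norm_mul, norm_real, Real.norm_eq_abs, norm_exp, eval_pow, eval_sub, eval_one, eval_X]
      have hu1 : 0 ≤ 1 - u := by linarith [hu.2]
      rw [abs_of_nonneg (pow_nonneg hu1 _)]
      refine mul_le_mul_of_nonneg_left ?_ (pow_nonneg hu1 _)
      have h6 : (-(z * (u : ℂ))).re = -z.re * u := by simp
      rw [h6]
      rcases le_total 0 (-z.re) with h7 | h7
      · refine le_max_of_le_right ?_
        rw [Real.exp_le_exp]
        nlinarith [hu.1, hu.2]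
      · refine le_max_of_le_left ?_
        rw [Real.exp_le_one_iff]
        nlinarith [hu.1, hu.2]
    · have hc : Continuous (fun u : ℝ => (1 - u) ^ (m - 1) * max 1 (Real.exp (-z.re))) := by
        fun_prop
      exact hc.intervalIntegrable _ _
  have hm' : (0 : ℝ) < m := by exact_mod_cast hm
  rw [km, norm_mul, norm_natCast]
  calc (m : ℝ) * ‖J ((1 - X) ^ (m - 1)) z‖ ≤ m * ((1 / m : ℝ) * max 1 (Real.exp (-z.re))) :=
        mul_le_mul_of_nonneg_left h1 hm'.le
    _ = _ := by field_simp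

/-! ### Plancherel -/

lemma J_cont (p : ℝ[X]) : Continuous (fun x : ℝ => J p (x * I)) :=
  (J_diff p).continuous.comp (continuous_ofReal.mul continuous_const)

lemma int_sq : Integrable (fun x : ℝ => (1 / (1 + |x|)) ^ 2) := by
  have h := integrable_inv_one_add_sq.const_mul 2
  have hm : AEStronglyMeasurable (fun x : ℝ => (1 / (1 + |x|)) ^ 2) volume := by
    have hc : Continuous (fun x : ℝ => (1 / (1 + |x|)) ^ 2) := by
      refine Continuous.pow ?_ 2
      exact continuous_const.div (continuous_const.add continuous_abs) fun x => by positivity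
    exact hc.aestronglyMeasurable
  refine h.mono' hm (Eventually.of_forall fun x => ?_)
  rw [Real.norm_of_nonneg (by positivity), div_pow, one_pow, one_div, ← one_div, ← div_eq_mul_inv,
    div_le_div_iff₀ (by positivity) (by positivity)]
  nlinarith [abs_nonneg x, sq_abs x]

lemma J_sq_int (p : ℝ[X]) : Integrable (fun x : ℝ => ‖J p (x * I)‖ ^ 2) := by
  obtain ⟨C, hC, h⟩ := J_bound p
  refine (int_sq.const_mul (C ^ 2)).mono' ((J_cont p).norm.pow 2).aestronglyMeasurable
    (Eventually.of_forall fun x => ?_)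
  rw [norm_pow, norm_norm, ← mul_pow, mul_one_div]
  exact pow_le_pow_left₀ (norm_nonneg _) (h x) 2

open FourierTransform in
/-- **Plancherel** -/
lemma J_planch (p : ℝ[X]) :
    ∫ x : ℝ, ‖J p (x * I)‖ ^ 2 = 2 * Real.pi * ∫ u in (0 : ℝ)..1, p.eval u ^ 2 := by
  set g : ℝ → ℂ := (Set.Ioc (0 : ℝ) 1).indicator (fun u => ((p.eval u : ℝ) : ℂ)) with hg
  have hcp : Continuous (fun u : ℝ => ((p.eval u : ℝ) : ℂ)) := continuous_ofReal.comp p.continuous
  have hg1 : Integrable g := by
    rw [hg, integrable_indicator_iff measurableSet_Ioc]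
    exact (hcp.integrableOn_Icc (a := 0) (b := 1)).mono_set Set.Ioc_subset_Icc_self
  have hgn : ∀ u, ‖g u‖ ^ 2 = (Set.Ioc (0 : ℝ) 1).indicator (fun u => p.eval u ^ 2) u := by
    intro u
    by_cases hu : u ∈ Set.Ioc (0 : ℝ) 1
    · rw [hg, Set.indicator_of_mem hu, Set.indicator_of_mem hu, norm_real, Real.norm_eq_abs, sq_abs]
    · rw [hg, Set.indicator_of_notMem hu, Set.indicator_of_notMem hu]
      simp
  have hg2i : Integrable (fun u => ‖g u‖ ^ 2) := by
    simp_rw [hgn]
    rw [integrable_indicator_iff measurableSet_Ioc]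
    have : Continuous (fun u : ℝ => p.eval u ^ 2) := p.continuous.pow 2
    exact (this.integrableOn_Icc (a := 0) (b := 1)).mono_set Set.Ioc_subset_Icc_self
  have hg2 : MemLp g 2 := (memLp_two_iff_integrable_sq_norm hg1.aestronglyMeasurable).2 hg2i
  have hF : ∀ ξ : ℝ, 𝓕 g ξ = J p ((2 * Real.pi * ξ : ℝ) * I) := by
    intro ξ
    rw [Real.fourier_eq', J, intervalIntegral.integral_of_le zero_le_one,
      ← integral_indicator measurableSet_Ioc]
    refine integral_congr_ae (Eventually.of_forall fun u => ?_)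
    simp only
    by_cases hu : u ∈ Set.Ioc (0 : ℝ) 1
    · rw [hg, Set.indicator_of_mem hu, Set.indicator_of_mem hu, smul_eq_mul, mul_comm]
      congr 2
      simp
      ring
    · rw [hg, Set.indicator_of_notMem hu, Set.indicator_of_notMem hu, smul_zero]
  have h1 := Pool.Agent.H153R4.plancherel g hg1 hg2
  have h2 : ∫ ξ, ‖𝓕 g ξ‖ ^ 2 = ∫ u, ‖g u‖ ^ 2 := by
    have e1 : ∀ f : ℝ → ℂ, ∀ x, ‖‖f x‖ ^ 2‖ₑ = ‖f x‖ₑ ^ 2 := by
      intro f x
      rw [enorm_pow, enorm_norm]
    have hmF : AEStronglyMeasurable (fun ξ => ‖𝓕 g ξ‖ ^ 2) volume := by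
      simp_rw [hF]
      have : Continuous (fun ξ : ℝ => ‖J p ((2 * Real.pi * ξ : ℝ) * I)‖ ^ 2) :=
        ((J_cont p).comp (continuous_const.mul continuous_id)).norm.pow 2
      exact this.aestronglyMeasurable
    rw [integral_eq_lintegral_of_nonneg_ae (Eventually.of_forall fun _ => by positivity) hmF,
      integral_eq_lintegral_of_nonneg_ae (Eventually.of_forall fun _ => by positivity)
        hg2i.aestronglyMeasurable]
    congr 1
    have e2 : ∀ f : ℝ → ℂ, ∀ x, ENNReal.ofReal (‖f x‖ ^ 2) = ‖f x‖ₑ ^ 2 := by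
      intro f x
      rw [← e1 f x, Real.enorm_eq_ofReal (by positivity)]
    simp_rw [e2]
    exact h1
  simp_rw [hF, hgn] at h2
  rw [integral_indicator measurableSet_Ioc, ← intervalIntegral.integral_of_le zero_le_one] at h2
  have h3 := Measure.integral_comp_mul_left (fun x : ℝ => ‖J p ((x : ℝ) * I)‖ ^ 2) (2 * Real.pi)
  rw [h2, abs_of_pos (by positivity), smul_eq_mul] at h3
  have hpi : (2 * Real.pi : ℝ) ≠ 0 := by positivity
  rw [h3, ← mul_assoc, mul_inv_cancel₀ hpi, one_mul]

end Pool.Agent.N891.OPT
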