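import Mathlib
import Pool.Agent.N891.OPT.F

set_option autoImplicit false

/-!
# Leibniz' rule for the profile
-/

namespace Pool.Agent.N891.OPT

open Complex MeasureTheory Filter Topology Polynomial

lemma Q_eq {m k : ℕ} (hk : k + 1 ≤ m) (z : ℂ) :
    (k.factorial : ℂ) * Q m k z = (k.factorial : ℂ) - z ^ (k + 1) * J (fk m k) z := by
  have hf : (k.factorial : ℂ) ≠ 0 := by exact_mod_cast k.factorial_ne_zero
  rw [pow_J hk, Q]
  field_simp
  ring

lemma inv_iter (n : ℕ) {w : ℂ} (hw : w ≠ 0) :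
    w ^ (n + 1) * iteratedDeriv n (fun z : ℂ => z⁻¹) w = (-1) ^ n * (n.factorial : ℂ) := by
  have h : iteratedDeriv n (fun z : ℂ => z⁻¹) w = (-1) ^ n * (n.factorial : ℂ) *
      w ^ (-1 - n : ℤ) := by
    rw [iteratedDeriv_eq_iterate]
    exact iter_deriv_inv n w
  rw [h]
  have h2 : w ^ (n + 1) * w ^ (-1 - n : ℤ) = 1 := by
    rw [← zpow_natCast w (n + 1), ← zpow_add₀ hw]
    push_cast
    rw [show ((n : ℤ) + 1 + (-1 - n)) = 0 by ring, zpow_zero]
  linear_combination ((-1) ^ n * (n.factorial : ℂ)) * h2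

/-- the second factor -/
lemma snd_iter {m n : ℕ} (hn : n + 1 ≤ m) (l : ℂ) {w : ℂ} (hw : w ≠ 0) :
    w ^ (n + 1) * iteratedDeriv n (fun z : ℂ => z⁻¹ - l * J ((1 - X) ^ m) (l * z)) w =
      (-1) ^ n * ((n.factorial : ℂ) * Q m n (l * w)) := by
  have hJ : ContDiff ℂ n (J ((1 - X) ^ m)) := (J_diff _).contDiff
  have h1 : ContDiffAt ℂ n (fun z : ℂ => z⁻¹) w := contDiffAt_inv ℂ hw
  have h2 : ContDiff ℂ n (fun z : ℂ => l * J ((1 - X) ^ m) (l * z)) :=
    contDiff_const.mul (hJ.comp (contDiff_const.mul contDiff_id))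
  rw [iteratedDeriv_fun_sub h1 h2.contDiffAt, iteratedDeriv_const_mul_field,
    iteratedDeriv_comp_const_mul hJ, mul_sub, inv_iter n hw, J_iter, Q_eq hn, fk]
  simp only
  rw [mul_pow]
  ring

/-- Leibniz' rule -/
theorem leib {κ : ℂ → ℂ} (hd : Differentiable ℂ κ) {m : ℕ} (hm : 1 ≤ m) (d l w : ℂ) (hw : w ≠ 0) :
    (-1) ^ (m - 1) * w ^ m / ((m - 1).factorial : ℂ) *
      iteratedDeriv (m - 1) (fun z => κ (d * z) * km m (l * z) / z) w =
    ∑ j ∈ Finset.range m, (-1) ^ j / (j.factorial : ℂ) *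
      ((d * w) ^ j * iteratedDeriv j κ (d * w)) * Q m (m - 1 - j) (l * w) := by
  have hκ : ContDiff ℂ (m - 1 : ℕ) κ := hd.contDiff
  have e1 : (fun z => κ (d * z) * km m (l * z) / z) =ᶠ[𝓝 w]
      fun z => κ (d * z) * (z⁻¹ - l * J ((1 - X) ^ m) (l * z)) := by
    filter_upwards [isOpen_ne.mem_nhds hw] with z hz
    have h1 := km_eq hm (l * z)
    have h2 : km m (l * z) = 1 - l * z * J ((1 - X) ^ m) (l * z) := by linear_combination h1
    have hz' : z ≠ 0 := hz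
    rw [h2]
    field_simp
  have hJ : ContDiff ℂ (m - 1 : ℕ) (J ((1 - X) ^ m)) := (J_diff _).contDiff
  have h1 : ContDiffAt ℂ (m - 1 : ℕ) (fun z : ℂ => z⁻¹) w := contDiffAt_inv ℂ hw
  have h2 : ContDiff ℂ (m - 1 : ℕ) (fun z : ℂ => l * J ((1 - X) ^ m) (l * z)) :=
    contDiff_const.mul (hJ.comp (contDiff_const.mul contDiff_id))
  have h3 : ContDiff ℂ (m - 1 : ℕ) (fun z : ℂ => κ (d * z)) :=
    hκ.comp (contDiff_const.mul contDiff_id)
  rw [e1.iteratedDeriv_eq, iteratedDeriv_fun_mul h3.contDiffAt (h1.sub h2.contDiffAt),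
    Finset.mul_sum, show m - 1 + 1 = m by omega]
  refine Finset.sum_congr rfl fun j hj => ?_
  have hjm : j ≤ m - 1 := by have := Finset.mem_range.1 hj; omega
  have hf1 : ((m - 1).factorial : ℂ) ≠ 0 := by exact_mod_cast (m - 1).factorial_ne_zero
  have hf2 : (j.factorial : ℂ) ≠ 0 := by exact_mod_cast j.factorial_ne_zero
  have hf3 : ((m - 1 - j).factorial : ℂ) ≠ 0 := by exact_mod_cast (m - 1 - j).factorial_ne_zero
  have hch : ((m - 1).choose j : ℂ) * (j.factorial : ℂ) * ((m - 1 - j).factorial : ℂ) =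
      ((m - 1).factorial : ℂ) := by
    exact_mod_cast Nat.choose_mul_factorial_mul_factorial hjm
  have hch0 : ((m - 1).choose j : ℂ) ≠ 0 := by exact_mod_cast (Nat.choose_pos hjm).ne'
  have h4 := snd_iter (m := m) (n := m - 1 - j) (by omega) l hw
  have h5 : iteratedDeriv j (fun z => κ (d * z)) w = d ^ j * iteratedDeriv j κ (d * w) := by
    rw [iteratedDeriv_comp_const_mul (hκ.of_le (by exact_mod_cast hjm))]
  have h6 : w ^ m = w ^ j * w ^ (m - 1 - j + 1) := by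
    rw [← pow_add]
    congr 1
    omega
  have h7 : (-1 : ℂ) ^ (m - 1) = (-1) ^ j * (-1) ^ (m - 1 - j) := by
    rw [← pow_add]
    congr 1
    omega
  have h8 : (-1 : ℂ) ^ (m - 1 - j) * (-1) ^ (m - 1 - j) = 1 := by
    rw [← mul_pow]
    norm_num
  rw [h5, h6, h7]
  calc (-1 : ℂ) ^ j * (-1) ^ (m - 1 - j) * (w ^ j * w ^ (m - 1 - j + 1)) /
        ((m - 1).factorial : ℂ) * (((m - 1).choose j : ℂ) * (d ^ j * iteratedDeriv j κ (d * w)) *
          iteratedDeriv (m - 1 - j) (fun z : ℂ => z⁻¹ - l * J ((1 - X) ^ m) (l * z)) w)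
      = (-1 : ℂ) ^ j * (-1) ^ (m - 1 - j) * w ^ j /
        ((m - 1).factorial : ℂ) * (((m - 1).choose j : ℂ) * (d ^ j * iteratedDeriv j κ (d * w)) *
          (w ^ (m - 1 - j + 1) * iteratedDeriv (m - 1 - j)
            (fun z : ℂ => z⁻¹ - l * J ((1 - X) ^ m) (l * z)) w)) := by ring
    _ = (-1 : ℂ) ^ j * ((-1) ^ (m - 1 - j) * (-1) ^ (m - 1 - j)) * w ^ j /
        ((m - 1).factorial : ℂ) * (((m - 1).choose j : ℂ) * (d ^ j * iteratedDeriv j κ (d * w)) *
          (((m - 1 - j).factorial : ℂ) * Q m (m - 1 - j) (l * w))) := by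
        rw [h4]
        ring
    _ = _ := by
        rw [h8, ← hch, mul_pow]
        field_simp

end Pool.Agent.N891.OPT
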