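import Mathlib
import Pool.Agent.N967.Stm3

set_option autoImplicit false

/-!
# Derivatives of the kernels on the imaginary axis
-/

namespace Pool.Agent.N891.OPT

open Complex MeasureTheory Filter Topology
open Pool.Agent.N967 (Ker)

/-- a power against the exponential -/
lemma pow_exp {c : ℝ} (hc : 0 < c) (j : ℕ) : ∃ B : ℝ, 0 < B ∧ ∀ t : ℝ, 0 ≤ t →
    (1 + t) ^ j * Real.exp (-(c * t ^ (19 / 20 : ℝ))) ≤ B := by
  refine ⟨2 ^ j + 2 ^ j * (2 * j).factorial / c ^ (2 * j), by positivity, fun t ht => ?_⟩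
  rcases le_total t 1 with h1 | h1
  · have h2 : (1 + t) ^ j ≤ 2 ^ j := pow_le_pow_left₀ (by linarith) (by linarith) j
    have h3 : Real.exp (-(c * t ^ (19 / 20 : ℝ))) ≤ 1 := by
      rw [Real.exp_le_one_iff]
      have : 0 ≤ t ^ (19 / 20 : ℝ) := Real.rpow_nonneg ht _
      nlinarith
    have h4 : (1 + t) ^ j * Real.exp (-(c * t ^ (19 / 20 : ℝ))) ≤ 2 ^ j * 1 :=
      mul_le_mul h2 h3 (Real.exp_pos _).le (by positivity)
    have h5 : 0 ≤ 2 ^ j * ((2 * j).factorial : ℝ) / c ^ (2 * j) := by positivity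
    linarith
  · have hs : Real.sqrt t ≤ t ^ (19 / 20 : ℝ) := by
      rw [Real.sqrt_eq_rpow]
      exact Real.rpow_le_rpow_of_exponent_le h1 (by norm_num)
    have hst : 0 < Real.sqrt t := Real.sqrt_pos.2 (by linarith)
    have h2 : (1 + t) ^ j ≤ (2 * t) ^ j := pow_le_pow_left₀ (by linarith) (by linarith) j
    have h3 : Real.exp (-(c * t ^ (19 / 20 : ℝ))) ≤
        ((2 * j).factorial : ℝ) / (c ^ (2 * j) * t ^ j) := by
      have h4 : (c * Real.sqrt t) ^ (2 * j) / ((2 * j).factorial : ℝ) ≤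
          Real.exp (c * t ^ (19 / 20 : ℝ)) :=
        (Real.pow_div_factorial_le_exp _ (by positivity) _).trans
          (Real.exp_le_exp.2 (mul_le_mul_of_nonneg_left hs hc.le))
      have h5 : (c * Real.sqrt t) ^ (2 * j) = c ^ (2 * j) * t ^ j := by
        rw [mul_pow, pow_mul (Real.sqrt t), Real.sq_sqrt ht]
      rw [h5] at h4
      rw [Real.exp_neg, inv_le_comm₀ (Real.exp_pos _) (by positivity), inv_div]
      exact h4
    have h6 : (1 + t) ^ j * Real.exp (-(c * t ^ (19 / 20 : ℝ))) ≤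
        (2 * t) ^ j * (((2 * j).factorial : ℝ) / (c ^ (2 * j) * t ^ j)) :=
      mul_le_mul h2 h3 (Real.exp_pos _).le (by positivity)
    have h7 : (2 * t) ^ j * (((2 * j).factorial : ℝ) / (c ^ (2 * j) * t ^ j)) =
        2 ^ j * (2 * j).factorial / c ^ (2 * j) := by
      rw [mul_pow]
      have : t ^ j ≠ 0 := pow_ne_zero _ (by linarith)
      field_simp
    rw [h7] at h6
    have h8 : (0 : ℝ) < 2 ^ j := by positivity
    linarith

/-- the derivatives of an admissible kernel on the imaginary axis -/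
lemma der_bound {κ : ℂ → ℂ} (hκ : Ker κ) (j : ℕ) : ∃ B : ℝ, 0 < B ∧ ∀ x : ℝ,
    ‖(x * I) ^ j * iteratedDeriv j κ (x * I)‖ ≤ B := by
  obtain ⟨hd, -, c, C, hc, hC, h1, h2⟩ := hκ
  obtain ⟨B, hB, hB'⟩ := pow_exp hc j
  refine ⟨j.factorial * (C * Real.exp 1) * B, by positivity, fun x => ?_⟩
  obtain ⟨t, ht⟩ : ∃ t : ℝ, t = max 0 (|x| - 1) := ⟨_, rfl⟩
  have ht0 : 0 ≤ t := by rw [ht]; exact le_max_left _ _
  have ht1 : |x| ≤ 1 + t := by
    have := le_max_right 0 (|x| - 1)
    rw [ht]; linarith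
  have h3 : ∀ z ∈ Metric.sphere ((x : ℂ) * I) 1,
      ‖κ z‖ ≤ C * Real.exp 1 * Real.exp (-(c * t ^ (19 / 20 : ℝ))) := by
    intro z hz
    have hz1 : ‖z - (x : ℂ) * I‖ = 1 := by simpa [dist_eq_norm] using hz
    have hre : |z.re| ≤ 1 := by
      have := abs_re_le_norm (z - (x : ℂ) * I)
      rw [hz1] at this
      simpa using this
    have him : |z.im - x| ≤ 1 := by
      have := abs_im_le_norm (z - (x : ℂ) * I)
      rw [hz1] at this
      simpa using this
    have hti : t ≤ |z.im| := by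
      rw [ht]
      refine max_le (abs_nonneg _) ?_
      have h4 : |x| ≤ |z.im| + |z.im - x| := by
        have := abs_sub_abs_le_abs_sub x z.im
        rw [abs_sub_comm] at this
        linarith
      linarith
    have h5 : Real.exp (-(c * |z.im| ^ (19 / 20 : ℝ))) ≤ Real.exp (-(c * t ^ (19 / 20 : ℝ))) := by
      rw [Real.exp_le_exp, neg_le_neg_iff]
      exact mul_le_mul_of_nonneg_left (Real.rpow_le_rpow ht0 hti (by norm_num)) hc.le
    rcases le_total 0 z.re with h6 | h6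
    · calc ‖κ z‖ ≤ C * Real.exp (-(c * |z.im| ^ (19 / 20 : ℝ))) := h1 z h6
        _ ≤ C * Real.exp (-(c * t ^ (19 / 20 : ℝ))) := mul_le_mul_of_nonneg_left h5 hC.le
        _ = C * 1 * Real.exp (-(c * t ^ (19 / 20 : ℝ))) := by ring
        _ ≤ _ := by
            refine mul_le_mul_of_nonneg_right (mul_le_mul_of_nonneg_left ?_ hC.le)
              (Real.exp_pos _).le
            exact Real.one_le_exp zero_le_one
    · calc ‖κ z‖ ≤ C * Real.exp (-z.re) * Real.exp (-(c * |z.im| ^ (19 / 20 : ℝ))) := h2 z h6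
        _ ≤ _ := by
            refine mul_le_mul (mul_le_mul_of_nonneg_left ?_ hC.le) h5 (Real.exp_pos _).le
              (by positivity)
            rw [Real.exp_le_exp]
            linarith [(abs_le.1 hre).1]
  have h4 := norm_iteratedDeriv_le_of_forall_mem_sphere_norm_le j one_pos
    (hd.diffContOnCl (s := Metric.ball ((x : ℂ) * I) 1)) h3
  rw [one_pow, div_one] at h4
  rw [norm_mul, norm_pow, norm_mul, norm_I, mul_one, norm_real, Real.norm_eq_abs]
  have h5 : |x| ^ j ≤ (1 + t) ^ j := pow_le_pow_left₀ (abs_nonneg _) ht1 j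
  have h6 := hB' t ht0
  calc |x| ^ j * ‖iteratedDeriv j κ (x * I)‖ ≤ (1 + t) ^ j *
        (j.factorial * (C * Real.exp 1 * Real.exp (-(c * t ^ (19 / 20 : ℝ))))) :=
        mul_le_mul h5 h4 (norm_nonneg _) (by positivity)
    _ = j.factorial * (C * Real.exp 1) * ((1 + t) ^ j * Real.exp (-(c * t ^ (19 / 20 : ℝ)))) := by
        ring
    _ ≤ _ := mul_le_mul_of_nonneg_left h6 (by positivity)

/-- the derivatives are continuous -/
lemma der_cont {κ : ℂ → ℂ} (hd : Differentiable ℂ κ) (j : ℕ) : Continuous (iteratedDeriv j κ) :=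
  (hd.contDiff (n := ⊤)).continuous_iteratedDeriv j (by simp)

/-- the limit for a fixed argument -/
lemma der_lim {κ : ℂ → ℂ} (hd : Differentiable ℂ κ) {j : ℕ} (hj : 1 ≤ j) (x : ℝ) :
    Tendsto (fun d : ℝ => ((d * x : ℝ) * I) ^ j * iteratedDeriv j κ ((d * x : ℝ) * I))
      (𝓝[>] 0) (𝓝 0) := by
  have hc : Continuous (fun d : ℝ => (((d * x : ℝ) : ℂ) * I) ^ j *
      iteratedDeriv j κ (((d * x : ℝ) : ℂ) * I)) := by
    have h1 : Continuous (fun d : ℝ => (((d * x : ℝ) : ℂ) * I)) :=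
      (continuous_ofReal.comp (continuous_id.mul continuous_const)).mul continuous_const
    exact (h1.pow j).mul ((der_cont hd j).comp h1)
  have h2 := hc.tendsto 0
  have h3 : (((0 * x : ℝ) : ℂ) * I) ^ j * iteratedDeriv j κ (((0 * x : ℝ) : ℂ) * I) = 0 := by
    rw [zero_mul, ofReal_zero, zero_mul, zero_pow (by omega), zero_mul]
  rw [h3] at h2
  exact h2.mono_left nhdsWithin_le_nhds

end Pool.Agent.N891.OPT
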