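import Mathlib
import Pool.Agent.N891.OPT.G
import Pool.Agent.N891.OPT.K0

set_option autoImplicit false

/-!
# Nearly optimal kernels
-/

namespace Pool.Agent.N891.OPT

open Complex MeasureTheory Filter Topology
open Pool.Agent.N967 (Ker GG S_gg S_hpol hpol)

/-- the kernels -/
noncomputable def kd (κ : ℂ → ℂ) (m : ℕ) (d : ℝ) (z : ℂ) : ℂ :=
  κ ((d : ℂ) * z) * km m (((1 - d : ℝ) : ℂ) * z)

lemma ker_kd {κ : ℂ → ℂ} (hκ : Ker κ) {m : ℕ} (hm : 1 ≤ m) {d : ℝ} (hd : 0 < d) (hd1 : d ≤ 1 / 2) :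
    Ker (kd κ m d) := by
  obtain ⟨h1, h2, c, C, hc, hC, h3, h4⟩ := hκ
  have hrp : ∀ y : ℝ, c * |d * y| ^ (19 / 20 : ℝ) = c * d ^ (19 / 20 : ℝ) * |y| ^ (19 / 20 : ℝ) := by
    intro y
    rw [abs_mul, abs_of_pos hd, Real.mul_rpow hd.le (abs_nonneg _), mul_assoc]
  refine ⟨?_, ?_, c * d ^ (19 / 20 : ℝ), C, by positivity, hC, fun z hz => ?_, fun z hz => ?_⟩
  · exact (h1.comp (differentiable_id.const_mul _)).mul
      ((km_diff m).comp (differentiable_id.const_mul _))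
  · rw [kd, mul_zero, mul_zero, h2, km_zero hm, one_mul]
  · have e1 : ‖κ ((d : ℂ) * z)‖ ≤ C * Real.exp (-(c * d ^ (19 / 20 : ℝ) * |z.im| ^ (19 / 20 : ℝ))) := by
      have := h3 ((d : ℂ) * z) (by rw [re_ofReal_mul]; positivity)
      rwa [im_ofReal_mul, hrp] at this
    have e2 : ‖km m (((1 - d : ℝ) : ℂ) * z)‖ ≤ 1 := by
      refine (km_bound hm _).trans (max_le le_rfl ?_)
      rw [re_ofReal_mul, Real.exp_le_one_iff]
      have : 0 ≤ (1 - d) * z.re := mul_nonneg (by linarith) hz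
      linarith
    rw [kd, norm_mul]
    calc _ ≤ C * Real.exp (-(c * d ^ (19 / 20 : ℝ) * |z.im| ^ (19 / 20 : ℝ))) * 1 :=
          mul_le_mul e1 e2 (norm_nonneg _) (by positivity)
      _ = _ := mul_one _
  · have e1 : ‖κ ((d : ℂ) * z)‖ ≤ C * Real.exp (-(d * z.re)) *
        Real.exp (-(c * d ^ (19 / 20 : ℝ) * |z.im| ^ (19 / 20 : ℝ))) := by
      have := h4 ((d : ℂ) * z) (by rw [re_ofReal_mul]; exact mul_nonpos_of_nonneg_of_nonpos hd.le hz)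
      rwa [im_ofReal_mul, hrp, re_ofReal_mul] at this
    have e2 : ‖km m (((1 - d : ℝ) : ℂ) * z)‖ ≤ Real.exp (-((1 - d) * z.re)) := by
      refine (km_bound hm _).trans (max_le ?_ ?_)
      · rw [Real.one_le_exp_iff]
        have : (1 - d) * z.re ≤ 0 := mul_nonpos_of_nonneg_of_nonpos (by linarith) hz
        linarith
      · rw [re_ofReal_mul]
    rw [kd, norm_mul]
    calc _ ≤ C * Real.exp (-(d * z.re)) *
          Real.exp (-(c * d ^ (19 / 20 : ℝ) * |z.im| ^ (19 / 20 : ℝ))) *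
          Real.exp (-((1 - d) * z.re)) := mul_le_mul e1 e2 (norm_nonneg _) (by positivity)
      _ = C * (Real.exp (-(d * z.re)) * Real.exp (-((1 - d) * z.re))) *
          Real.exp (-(c * d ^ (19 / 20 : ℝ) * |z.im| ^ (19 / 20 : ℝ))) := by ring
      _ = _ := by
          rw [← Real.exp_add]
          congr 3
          ring

/-- the terms in Leibniz' rule -/
noncomputable def TT (κ : ℂ → ℂ) (m : ℕ) (d x : ℝ) (j : ℕ) : ℂ :=
  (-1) ^ j / (j.factorial : ℂ) *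
    (((d : ℂ) * (x * I)) ^ j * iteratedDeriv j κ ((d : ℂ) * (x * I))) *
    Q m (m - 1 - j) (((1 - d : ℝ) : ℂ) * (x * I))

lemma gg_kd (hgg : S_gg) {κ : ℂ → ℂ} (hκ : Ker κ) {m : ℕ} (hm : 1 ≤ m) {d : ℝ} (hd : 0 < d)
    (hd1 : d ≤ 1 / 2) {x : ℝ} (hx : x ≠ 0) :
    GG (kd κ m d) m x = ∑ j ∈ Finset.range m, TT κ m d x j := by
  rw [hgg _ (ker_kd hκ hm hd hd1) m x hm hx]
  have hw : (x : ℂ) * I ≠ 0 := mul_ne_zero (by exact_mod_cast hx) I_ne_zero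
  exact leib hκ.1 hm (d : ℂ) ((1 - d : ℝ) : ℂ) ((x : ℂ) * I) hw

lemma Q_bound (m k : ℕ) : ∃ C : ℝ, 0 < C ∧ ∀ x : ℝ, ‖Q m k (x * I)‖ ≤ C / (1 + |x|) := by
  obtain ⟨C, hC, h⟩ := J_bound (Polynomial.derivative^[k + 1] (fk m k))
  refine ⟨C, hC, fun x => ?_⟩
  rw [Q, norm_mul, norm_neg, norm_div, norm_one, norm_natCast]
  have hf : (1 : ℝ) ≤ k.factorial := by exact_mod_cast k.factorial_pos
  calc 1 / (k.factorial : ℝ) * ‖J (Polynomial.derivative^[k + 1] (fk m k)) (x * I)‖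
      ≤ 1 * ‖J (Polynomial.derivative^[k + 1] (fk m k)) (x * I)‖ :=
        mul_le_mul_of_nonneg_right (by rw [div_le_one (by positivity)]; exact hf) (norm_nonneg _)
    _ ≤ _ := by rw [one_mul]; exact h x

lemma Q_diff (m k : ℕ) : Differentiable ℂ (Q m k) := (J_diff _).const_mul _

lemma TT_bound {κ : ℂ → ℂ} (hκ : Ker κ) (m j : ℕ) : ∃ M : ℝ, 0 < M ∧ ∀ d x : ℝ, 0 < d → d ≤ 1 / 2 →
    ‖TT κ m d x j‖ ≤ M / (1 + |x|) := by
  obtain ⟨B, hB, hB'⟩ := der_bound hκ j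
  obtain ⟨C, hC, hC'⟩ := Q_bound m (m - 1 - j)
  refine ⟨2 * B * C, by positivity, fun d x hd hd1 => ?_⟩
  have e1 : (d : ℂ) * ((x : ℂ) * I) = ((d * x : ℝ) : ℂ) * I := by push_cast; ring
  have e2 : ((1 - d : ℝ) : ℂ) * ((x : ℂ) * I) = (((1 - d) * x : ℝ) : ℂ) * I := by push_cast; ring
  rw [TT, norm_mul, norm_mul, norm_div, norm_pow, norm_neg, norm_one, one_pow, norm_natCast, e1, e2]
  have hf : (1 : ℝ) ≤ j.factorial := by exact_mod_cast j.factorial_pos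
  have h1 := hB' (d * x)
  have h2 := hC' ((1 - d) * x)
  have h3 : 1 / (j.factorial : ℝ) ≤ 1 := by rw [div_le_one (by positivity)]; exact hf
  have h4 : C / (1 + |(1 - d) * x|) ≤ 2 * C / (1 + |x|) := by
    rw [abs_mul, abs_of_pos (by linarith : 0 < 1 - d), div_le_div_iff₀ (by
      have := abs_nonneg x
      nlinarith) (by positivity)]
    have h6 := abs_nonneg x
    have h5 : 1 + |x| ≤ 2 * (1 + (1 - d) * |x|) := by nlinarith
    calc C * (1 + |x|) ≤ C * (2 * (1 + (1 - d) * |x|)) := mul_le_mul_of_nonneg_left h5 hC.le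
      _ = _ := by ring
  calc _ ≤ 1 * B * (C / (1 + |(1 - d) * x|)) :=
        mul_le_mul (mul_le_mul h3 h1 (norm_nonneg _) zero_le_one) h2 (norm_nonneg _) (by positivity)
    _ ≤ 1 * B * (2 * C / (1 + |x|)) := mul_le_mul_of_nonneg_left h4 (by positivity)
    _ = _ := by ring

/-- continuity of the terms -/
lemma TT_cont {κ : ℂ → ℂ} (hκ : Ker κ) (m j : ℕ) {f g : ℝ → ℝ} (hf : Continuous f)
    (hg : Continuous g) : Continuous (fun t : ℝ => TT κ m (f t) (g t) j) := by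
  unfold TT
  have h1 : Continuous (fun t : ℝ => (f t : ℂ) * ((g t : ℂ) * I)) := by fun_prop
  have h2 : Continuous (fun t : ℝ => ((1 - f t : ℝ) : ℂ) * ((g t : ℂ) * I)) := by fun_prop
  exact (continuous_const.mul ((h1.pow j).mul ((der_cont hκ.1 j).comp h1))).mul
    ((Q_diff m _).continuous.comp h2)

lemma TT_lim {κ : ℂ → ℂ} (hκ : Ker κ) (m : ℕ) {j : ℕ} (hj : 1 ≤ j) (x : ℝ) :
    Tendsto (fun d : ℝ => TT κ m d x j) (𝓝[>] 0) (𝓝 0) := by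
  have h1 : Continuous (fun d : ℝ => TT κ m d x j) :=
    TT_cont hκ m j (f := fun d => d) (g := fun _ => x) continuous_id continuous_const
  have h2 := h1.tendsto 0
  have h3 : TT κ m 0 x j = 0 := by
    rw [TT, ofReal_zero, zero_mul, zero_pow (by omega), zero_mul, mul_zero, zero_mul]
  rw [h3] at h2
  exact h2.mono_left nhdsWithin_le_nhds

/-- the other terms -/
noncomputable def BB (κ : ℂ → ℂ) (m : ℕ) (d x : ℝ) : ℂ :=
  ∑ j ∈ Finset.range (m - 1), TT κ m d x (j + 1)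

lemma BB_cont {κ : ℂ → ℂ} (hκ : Ker κ) (m : ℕ) (d : ℝ) : Continuous (BB κ m d) := by
  unfold BB
  refine continuous_finsetSum _ fun j _ => ?_
  exact TT_cont hκ m (j + 1) (f := fun _ => d) (g := fun x => x) continuous_const continuous_id

lemma BB_bound {κ : ℂ → ℂ} (hκ : Ker κ) (m : ℕ) : ∃ M : ℝ, 0 ≤ M ∧ ∀ d x : ℝ, 0 < d → d ≤ 1 / 2 →
    ‖BB κ m d x‖ ≤ M / (1 + |x|) := by
  choose M hM hM' using fun j => TT_bound hκ m (j + 1)
  refine ⟨∑ j ∈ Finset.range (m - 1), M j, Finset.sum_nonneg fun j _ => (hM j).le,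
    fun d x hd hd1 => ?_⟩
  rw [BB, Finset.sum_div]
  exact (norm_sum_le _ _).trans (Finset.sum_le_sum fun j _ => hM' j d x hd hd1)

lemma BB_lim {κ : ℂ → ℂ} (hκ : Ker κ) (m : ℕ) :
    Tendsto (fun d : ℝ => ∫ x : ℝ, ‖BB κ m d x‖ ^ 2) (𝓝[>] 0) (𝓝 0) := by
  obtain ⟨M, hM, hM'⟩ := BB_bound hκ m
  suffices key : Tendsto (fun d : ℝ => ∫ x : ℝ, ‖BB κ m d x‖ ^ 2) (𝓝[>] 0)
      (𝓝 (∫ x : ℝ, (0 : ℝ))) by
    rwa [integral_zero] at key
  have hev : ∀ᶠ d : ℝ in 𝓝[>] 0, 0 < d ∧ d ≤ 1 / 2 := by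
    have : Set.Ioc (0 : ℝ) (1 / 2) ∈ 𝓝[>] (0 : ℝ) := Ioc_mem_nhdsGT (by norm_num)
    filter_upwards [this] with d hd
    exact ⟨hd.1, hd.2⟩
  refine tendsto_integral_filter_of_dominated_convergence (fun x => (M / (1 + |x|)) ^ 2) ?_ ?_ ?_ ?_
  · exact Eventually.of_forall fun d => ((BB_cont hκ m d).norm.pow 2).aestronglyMeasurable
  · filter_upwards [hev] with d hd
    refine Eventually.of_forall fun x => ?_
    rw [norm_pow, norm_norm]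
    exact pow_le_pow_left₀ (norm_nonneg _) (hM' d x hd.1 hd.2) 2
  · refine (int_sq.const_mul (M ^ 2)).congr (Eventually.of_forall fun x => ?_)
    simp only
    rw [← mul_pow, mul_one_div]
  · refine Eventually.of_forall fun x => ?_
    have h1 : Tendsto (fun d : ℝ => BB κ m d x) (𝓝[>] 0) (𝓝 0) := by
      have h2 : Tendsto (fun d : ℝ => ∑ j ∈ Finset.range (m - 1), TT κ m d x (j + 1)) (𝓝[>] 0)
          (𝓝 (∑ j ∈ Finset.range (m - 1), (0 : ℂ))) :=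
        tendsto_finsetSum _ fun j _ => TT_lim hκ m (by omega) x
      rw [Finset.sum_const_zero] at h2
      exact h2
    have h3 := (h1.norm).pow 2
    rw [norm_zero, zero_pow two_ne_zero] at h3
    exact h3

lemma BB_int {κ : ℂ → ℂ} (hκ : Ker κ) (m : ℕ) {d : ℝ} (hd : 0 < d) (hd1 : d ≤ 1 / 2) :
    Integrable (fun x : ℝ => ‖BB κ m d x‖ ^ 2) := by
  obtain ⟨M, hM, hM'⟩ := BB_bound hκ m
  refine (int_sq.const_mul (M ^ 2)).mono' ((BB_cont hκ m d).norm.pow 2).aestronglyMeasurable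
    (Eventually.of_forall fun x => ?_)
  rw [norm_pow, norm_norm, ← mul_pow, mul_one_div]
  exact pow_le_pow_left₀ (norm_nonneg _) (hM' d x hd hd1) 2

/-- the main term -/
lemma Q_hpol {m : ℕ} (hm : 1 ≤ m) (z : ℂ) : Q m (m - 1) z = J (hpol m) z := by
  rw [hpol, J_neg, J_C_mul, Q, fk, show m - 1 + 1 = m by omega]
  push_cast
  ring

lemma Q_main (hh : S_hpol) {m : ℕ} (hm : 1 ≤ m) :
    Integrable (fun x : ℝ => ‖Q m (m - 1) (x * I)‖ ^ 2) ∧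
    ∫ x : ℝ, ‖Q m (m - 1) (x * I)‖ ^ 2 = 2 * Real.pi * (m : ℝ) ^ 2 := by
  simp_rw [Q_hpol hm]
  refine ⟨J_sq_int _, ?_⟩
  obtain ⟨h1, h2, h3⟩ := hh m hm
  rw [J_planch]
  congr 1
  have h4 := h3 (hpol m) h1
  rw [h2] at h4
  rw [← h4]
  refine intervalIntegral.integral_congr fun u _ => ?_
  ring

lemma Q_scaled (hh : S_hpol) {m : ℕ} (hm : 1 ≤ m) {d : ℝ} (hd1 : d ≤ 1 / 2) :
    Integrable (fun x : ℝ => ‖Q m (m - 1) (((1 - d : ℝ) : ℂ) * (x * I))‖ ^ 2) ∧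
    ∫ x : ℝ, ‖Q m (m - 1) (((1 - d : ℝ) : ℂ) * (x * I))‖ ^ 2 =
      2 * Real.pi * (m : ℝ) ^ 2 / (1 - d) := by
  obtain ⟨h1, h2⟩ := Q_main hh hm
  have e2 : ∀ x : ℝ, ((1 - d : ℝ) : ℂ) * ((x : ℂ) * I) = (((1 - d) * x : ℝ) : ℂ) * I := by
    intro x; push_cast; ring
  have hpos : 0 < 1 - d := by linarith
  simp_rw [e2]
  refine ⟨h1.comp_mul_left' hpos.ne', ?_⟩
  rw [Measure.integral_comp_mul_left (fun x : ℝ => ‖Q m (m - 1) ((x : ℂ) * I)‖ ^ 2) (1 - d), h2,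
    abs_of_pos (by positivity), smul_eq_mul]
  field_simp

/-- **nearly optimal kernels** -/
theorem main (hgg : S_gg) (hh : S_hpol) {κ : ℂ → ℂ} (hκ : Ker κ) (hb : ∀ y : ℝ, ‖κ (y * I)‖ ≤ 1)
    {m : ℕ} (hm : 1 ≤ m) {ε : ℝ} (hε : 0 < ε) : ∃ κ' : ℂ → ℂ, Ker κ' ∧
      ∫⁻ x : ℝ, ENNReal.ofReal (‖GG κ' m x‖ ^ 2) ≤
        ENNReal.ofReal (2 * Real.pi * ((m : ℝ) ^ 2 + ε)) := by
  have hpi := Real.pi_pos
  obtain ⟨s, hs, hs'⟩ : ∃ s : ℝ, 0 < s ∧ (1 + s) * (m : ℝ) ^ 2 < (m : ℝ) ^ 2 + ε := by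
    refine ⟨ε / ((m : ℝ) ^ 2 + 1), by positivity, ?_⟩
    have h1 : ε / ((m : ℝ) ^ 2 + 1) * (m : ℝ) ^ 2 < ε := by
      rw [div_mul_eq_mul_div, div_lt_iff₀ (by positivity)]
      nlinarith [sq_nonneg (m : ℝ)]
    linarith
  have hlim : Tendsto (fun d : ℝ => (1 + s) * (2 * Real.pi * (m : ℝ) ^ 2 / (1 - d)) +
      (1 + 1 / s) * ∫ x : ℝ, ‖BB κ m d x‖ ^ 2) (𝓝[>] 0)
      (𝓝 ((1 + s) * (2 * Real.pi * (m : ℝ) ^ 2 / (1 - 0)) + (1 + 1 / s) * 0)) := by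
    refine Tendsto.add (Tendsto.const_mul _ ?_) ((BB_lim hκ m).const_mul _)
    refine Tendsto.div tendsto_const_nhds ?_ (by norm_num)
    exact (tendsto_const_nhds.sub tendsto_id).mono_left nhdsWithin_le_nhds
  have hlt : (1 + s) * (2 * Real.pi * (m : ℝ) ^ 2 / (1 - 0)) + (1 + 1 / s) * 0 <
      2 * Real.pi * ((m : ℝ) ^ 2 + ε) := by
    rw [sub_zero, div_one, mul_zero, add_zero]
    nlinarith
  have hev : ∀ᶠ d : ℝ in 𝓝[>] 0, 0 < d ∧ d ≤ 1 / 2 := by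
    have : Set.Ioc (0 : ℝ) (1 / 2) ∈ 𝓝[>] (0 : ℝ) := Ioc_mem_nhdsGT (by norm_num)
    filter_upwards [this] with d hd
    exact ⟨hd.1, hd.2⟩
  obtain ⟨d, hd1, hd2, hd3⟩ := ((hlim.eventually (gt_mem_nhds hlt)).and hev).exists
  refine ⟨kd κ m d, ker_kd hκ hm hd2 hd3, ?_⟩
  obtain ⟨hQi, hQ⟩ := Q_scaled hh hm hd3
  have hBi := BB_int hκ m hd2 hd3
  have hsum : Integrable (fun x : ℝ =>
      (1 + s) * ‖Q m (m - 1) (((1 - d : ℝ) : ℂ) * (x * I))‖ ^ 2 +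
      (1 + 1 / s) * ‖BB κ m d x‖ ^ 2) := (hQi.const_mul _).add (hBi.const_mul _)
  have hnn : ∀ x : ℝ, 0 ≤ (1 + s) * ‖Q m (m - 1) (((1 - d : ℝ) : ℂ) * (x * I))‖ ^ 2 +
      (1 + 1 / s) * ‖BB κ m d x‖ ^ 2 := fun x => by positivity
  have hpt : ∀ x : ℝ, x ≠ 0 → ‖GG (kd κ m d) m x‖ ^ 2 ≤
      (1 + s) * ‖Q m (m - 1) (((1 - d : ℝ) : ℂ) * (x * I))‖ ^ 2 +
      (1 + 1 / s) * ‖BB κ m d x‖ ^ 2 := by
    intro x hx
    have h1 : GG (kd κ m d) m x = BB κ m d x + TT κ m d x 0 := by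
      rw [gg_kd hgg hκ hm hd2 hd3 hx, BB, ← Finset.sum_range_succ', show m - 1 + 1 = m by omega]
    have h2 : ‖TT κ m d x 0‖ ≤ ‖Q m (m - 1) (((1 - d : ℝ) : ℂ) * (x * I))‖ := by
      have e1 : (d : ℂ) * ((x : ℂ) * I) = ((d * x : ℝ) : ℂ) * I := by push_cast; ring
      rw [TT, norm_mul, pow_zero, pow_zero, Nat.factorial_zero, iteratedDeriv_zero, e1]
      have h3 := hb (d * x)
      simp only [Nat.cast_one, div_one, one_mul, Nat.sub_zero]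
      exact mul_le_of_le_one_left (norm_nonneg _) h3
    have h3 : ‖GG (kd κ m d) m x‖ ≤ ‖BB κ m d x‖ + ‖TT κ m d x 0‖ := by
      rw [h1]
      exact norm_add_le _ _
    obtain ⟨u, hu⟩ : ∃ u : ℝ, u = ‖BB κ m d x‖ := ⟨_, rfl⟩
    obtain ⟨v, hv⟩ : ∃ v : ℝ, v = ‖Q m (m - 1) (((1 - d : ℝ) : ℂ) * (x * I))‖ := ⟨_, rfl⟩
    have hu0 : 0 ≤ u := by rw [hu]; exact norm_nonneg _
    have hv0 : 0 ≤ v := by rw [hv]; exact norm_nonneg _
    have h4 : ‖GG (kd κ m d) m x‖ ^ 2 ≤ (u + v) ^ 2 :=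
      pow_le_pow_left₀ (norm_nonneg _) (by rw [hu, hv]; linarith) 2
    have h5 : (u + v) ^ 2 ≤ (1 + s) * v ^ 2 + (1 + 1 / s) * u ^ 2 := by
      have h6 : 0 ≤ (s * v - u) ^ 2 / s := by positivity
      have h7 : (s * v - u) ^ 2 / s = s * v ^ 2 - 2 * u * v + 1 / s * u ^ 2 := by
        field_simp
        ring
      rw [h7] at h6
      nlinarith
    rw [← hu, ← hv]
    exact h4.trans h5
  have hae : ∀ᵐ x : ℝ, x ≠ 0 := by
    have := (measure_singleton (0 : ℝ) : volume {(0 : ℝ)} = 0)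
    exact compl_mem_ae_iff.2 this
  calc ∫⁻ x : ℝ, ENNReal.ofReal (‖GG (kd κ m d) m x‖ ^ 2)
      ≤ ∫⁻ x : ℝ, ENNReal.ofReal ((1 + s) * ‖Q m (m - 1) (((1 - d : ℝ) : ℂ) * (x * I))‖ ^ 2 +
          (1 + 1 / s) * ‖BB κ m d x‖ ^ 2) := by
        refine lintegral_mono_ae ?_
        filter_upwards [hae] with x hx
        exact ENNReal.ofReal_le_ofReal (hpt x hx)
    _ = ENNReal.ofReal (∫ x : ℝ, ((1 + s) * ‖Q m (m - 1) (((1 - d : ℝ) : ℂ) * (x * I))‖ ^ 2 +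
          (1 + 1 / s) * ‖BB κ m d x‖ ^ 2)) :=
        (ofReal_integral_eq_lintegral_ofReal hsum (Eventually.of_forall hnn)).symm
    _ ≤ _ := by
        apply ENNReal.ofReal_le_ofReal
        rw [integral_add (hQi.const_mul _) (hBi.const_mul _), integral_const_mul,
          integral_const_mul, hQ]
        exact hd1.le

end Pool.Agent.N891.OPT
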